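import Pool.Agent.Lib.MP_d81877_alZS.Conc
import Pool.Agent.Lib.MP_d81877_alCh.Inst

/-!
MP_d81877_al, part D, step 3 and membership of the block element on the concrete model `Z`.
-/

namespace D81877ZS

open D81877ZF D81877Ch

set_option linter.unusedSectionVars false

variable {ι : Type*} [LinearOrder ι] [Fintype ι] {K : Type*} [Field K] [CharP K 2]

/-- multiplication by `ε_x` as a linear map over the ring of the `f_x` -/
noncomputable def epA (ι : Type*) [LinearOrder ι] (K : Type*) [Field K] (x : ι) :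
    Z ι K →ₗ[AF ι K] Z ι K :=
  AF.lin (th x) fun y => f_th_comm y x

/-- the derivation as a linear map over the ring of the `f_x` -/
noncomputable def dAF (ι : Type*) [LinearOrder ι] (K : Type*) [Field K] (x : ι) :
    Z ι K →ₗ[AF ι K] Z ι K :=
  AF.lin (d x) fun y => f_d_comm y x

theorem epA_apply (x : ι) (u : Z ι K) : epA ι K x u = th x u := rfl
theorem dAF_apply (x : ι) (u : Z ι K) : dAF ι K x u = d x u := rfl

theorem axZ : Ax (AF.f : ι → AF ι K) (epA ι K) (dAF ι K) (vac ι K) where
  ff x := AF.op_injective (by rw [AF.op_mul, AF.op_f, f_sq, AF.op_zero])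
  dd x y m := LinearMap.congr_fun (d_comm x y).eq m
  d2 x m := LinearMap.congr_fun (d_sq x) m
  de x m := by
    have h := LinearMap.congr_fun (d_th_self (K := K) x) m
    rw [LinearMap.add_apply, Module.End.mul_apply, Module.End.mul_apply, Module.End.one_apply] at h
    simp only [epA_apply, dAF_apply]
    rw [h, add_comm]
  de' x y hxy m := LinearMap.congr_fun (d_th_comm hxy).eq m
  dz x := d_vac x

theorem d_EE {u x : ι} (h : u ≠ x) : Commute (d u : Module.End K (Z ι K)) (D81877M.EE Finset.univ x) :=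
  (d_th_comm h).add_right ((f_d_comm x u).symm.mul_right (d_D _ u))

theorem clZ_E_apply (x : ι) (m : Z ι K) :
    (clZ ι K).E x m = D81877M.EE Finset.univ x m := rfl

/-- the words do not involve other sites -/
theorem d_word (u : ι) (W : List ι) (hu : u ∉ W) :
    d u ((clZ ι K).tw W) = 0 ∧ d u ((clZ ι K).aw W) = 0 := by
  induction W using List.reverseRecOn with
  | nil =>
    rw [Cliff.tw_nil, Cliff.aw_nil, map_zero]
    exact ⟨d_vac u, rfl⟩
  | append_singleton W x ih =>
    simp only [List.mem_append, List.mem_singleton, not_or] at hu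
    obtain ⟨i1, i2⟩ := ih hu.1
    have hd : ∀ (c : AF ι K) (m : Z ι K), d u (c • m) = c • d u m := fun c m =>
      (dAF ι K u).map_smul c m
    have hE : ∀ m : Z ι K, d u ((clZ ι K).E x m) = (clZ ι K).E x (d u m) := fun m =>
      LinearMap.congr_fun (d_EE (K := K) hu.2).eq m
    constructor
    · rw [Cliff.tw_append]
      simp only [map_add, hd, hE, i1, i2, map_zero, smul_zero, add_zero]
    · rw [Cliff.aw_append]
      simp only [map_add, hd, hE, i1, i2, map_zero, smul_zero, add_zero]

/-- on vectors without sites above `x` the operator `E_x` is the multiplication by `ε_x` -/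
theorem E_eq_ep (x : ι) (m : Z ι K) (h : ∀ u, x < u → d u m = 0) :
    (clZ ι K).E x m = epA ι K x m := by
  rw [clZ_E_apply, epA_apply]
  unfold D81877M.EE
  rw [LinearMap.add_apply, Module.End.mul_apply, LinearMap.sum_apply]
  have : ∑ u ∈ Finset.univ.filter (fun u => x < u), (f u * d u : Module.End K (Z ι K)) m = 0 := by
    refine Finset.sum_eq_zero fun u hu => ?_
    rw [Module.End.mul_apply, h u (Finset.mem_filter.1 hu).2, map_zero]
  rw [this, map_zero, add_zero]

theorem rcZ : Rc (AF.f : ι → AF ι K) (epA ι K) (vac ι K) (clZ ι K).tw (clZ ι K).aw where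
  t0 := rfl
  a0 := rfl
  tx W x _ hx := by
    have hW : ∀ u, x < u → u ∉ W := fun u hu h => lt_asymm hu (hx u h)
    rw [Cliff.tw_append, E_eq_ep x _ fun u hu => (d_word u W (hW u hu)).1,
      E_eq_ep x _ fun u hu => (d_word u W (hW u hu)).2]
    rfl
  ax W x _ hx := by
    have hW : ∀ u, x < u → u ∉ W := fun u hu h => lt_asymm hu (hx u h)
    rw [Cliff.aw_append, E_eq_ep x _ fun u hu => (d_word u W (hW u hu)).2]
    rfl

theorem DD_eq (m : Z ι K) : DD (AF.f : ι → AF ι K) (dAF ι K) Finset.univ m = (clZ ι K).D m := by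
  rw [DD_apply]
  change _ = D Finset.univ m
  unfold D
  rw [LinearMap.sum_apply]
  rfl

/-- **the block element is in the span of the words** -/
theorem block_mem_Z {R S : Finset ι} (hV : Finset.univ = R ∪ S) (hRS : ∀ r ∈ R, ∀ x ∈ S, r < x)
    {b s : ℕ} (hS : S.card = 2 * s + 1) (hsb : s ≤ b) (hVb : 2 * b + 4 ≤ Fintype.card ι) :
    D Finset.univ ((D81877G.TS K S : D81877G.AA ι K).val (su (clZ ι K).aw Finset.univ (2 * b + 2)))
      ∈ D818Zm.sp (clZ ι K).Pw Finset.univ (2 * b + 2) := by
  have hP : (fun W => DD (AF.f : ι → AF ι K) (dAF ι K) Finset.univ ((clZ ι K).aw W)) =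
      (clZ ι K).Pw := by
    funext W
    rw [DD_eq]; rfl
  have hD : (fun W => DD (AF.f : ι → AF ι K) (dAF ι K) Finset.univ ((clZ ι K).tw W)) =
      fun W => (clZ ι K).D ((clZ ι K).tw W) := by
    funext W
    rw [DD_eq]
  have h := block_mem (f := (AF.f : ι → AF ι K)) (ep := epA ι K) (d := dAF ι K) (o := vac ι K)
    (t := (clZ ι K).tw) (a := (clZ ι K).aw) (E := (clZ ι K).E) axZ rcZ hV hRS hS hsb
    (by rw [Finset.card_univ]; exact hVb)
    (by rw [hP]; exact (clZ ι K).lawK _) (by rw [hP]; exact (clZ ι K).lawT _)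
    (by rw [hP]; exact (clZ ι K).lawI _) (by rw [hP, hD]; exact (clZ ι K).lawA _)
    (by
      intro z hz Y hY
      refine E_eq_ep z _ fun u hu => ?_
      have huY : u ∉ Y.sort (· ≤ ·) := fun hh =>
        lt_asymm hu (hRS u (hY ((Finset.mem_sort _).1 hh)) z hz)
      rw [DD_eq]
      change d u (D Finset.univ ((clZ ι K).aw (Y.sort (· ≤ ·)))) = 0
      have h1 := LinearMap.congr_fun (d_D (K := K) Finset.univ u).eq
        ((clZ ι K).aw (Y.sort (· ≤ ·)))
      rw [Module.End.mul_apply, Module.End.mul_apply] at h1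
      rw [h1, (d_word u _ huY).2, map_zero])
  rw [hP, DD_eq, ← TS_apply (K := K) (fun x u => AF.f_smul x u) (fun x u => rfl) axZ
    (by rw [hS]; exact ⟨s, rfl⟩)] at h
  exact h

/-- the same with the product of the transforms along the increasing path -/
theorem path_mem_Z {R S : Finset ι} (hV : Finset.univ = R ∪ S) (hRS : ∀ r ∈ R, ∀ x ∈ S, r < x)
    {b s : ℕ} (hS : S.card = 2 * s + 1) (hsb : s ≤ b) (hVb : 2 * b + 4 ≤ Fintype.card ι) :
    D Finset.univ (Tl ((S.sort (· ≤ ·)).zip (S.sort (· ≤ ·)).tail)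
      (su (clZ ι K).aw Finset.univ (2 * b + 2)))
      ∈ D818Zm.sp (clZ ι K).Pw Finset.univ (2 * b + 2) := by
  rw [Tl_path _ (Finset.sort_nodup _ _), Finset.sort_toFinset]
  exact block_mem_Z hV hRS hS hsb hVb

end D81877ZS
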