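import Mathlib
import Pool.Agent.Lib.MP_d81877_alZm.Membership

/-!
MP_d81877_al, part D, step 3 of the membership proof (abstract form): the product of the
transforms of a path on the last `2 s + 1` sites, applied to the sum of all words.

`A` is a commutative ring of characteristic two acting on `M`; `ep x`, `d x` are the
multiplication by `ε_x` and the derivation `∂/∂ε_x`; `t`, `a` are the two recursions on
increasing lists.
-/

set_option linter.unusedSectionVars false
set_option linter.unusedVariables false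

namespace D81877ZS

open D818Zm

variable {ι A M : Type*} [LinearOrder ι] [CommRing A] [CharP A 2] [AddCommGroup M] [Module A M]

/-- the rules of the calculus -/
structure Ax (f : ι → A) (ep d : ι → M →ₗ[A] M) (o : M) : Prop where
  ff : ∀ x, f x * f x = 0
  dd : ∀ x y m, d x (d y m) = d y (d x m)
  d2 : ∀ x m, d x (d x m) = 0
  de : ∀ x m, d x (ep x m) = m + ep x (d x m)
  de' : ∀ x y, x ≠ y → ∀ m, d x (ep y m) = ep y (d x m)
  dz : ∀ x, d x o = 0

/-- the recursions on increasing lists -/
structure Rc (f : ι → A) (ep : ι → M →ₗ[A] M) (o : M) (t a : List ι → M) : Prop where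
  t0 : t [] = o
  a0 : a [] = 0
  tx : ∀ (W : List ι) (x : ι), W.Pairwise (· < ·) → (∀ y ∈ W, y < x) →
    t (W ++ [x]) = ep x (t W) + ((W.length : A) * f x) • t W + f x • ep x (a W)
  ax : ∀ (W : List ι) (x : ι), W.Pairwise (· < ·) → (∀ y ∈ W, y < x) →
    a (W ++ [x]) = t W + ep x (a W) + (((W.length : A) + 1) * f x) • a W

/-- product of the derivations of a list -/
def dP (d : ι → M →ₗ[A] M) : List ι → M →ₗ[A] M
  | [] => LinearMap.id
  | x :: L => (d x).comp (dP d L)

/-- elementary symmetric function of degree `length - 1` in the derivations -/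
def dE (d : ι → M →ₗ[A] M) : List ι → M →ₗ[A] M
  | [] => 0
  | x :: L => (d x).comp (dE d L) + dP d L

section basic

variable {f : ι → A} {ep d : ι → M →ₗ[A] M} {o : M} {t a : List ι → M}

theorem dP_d (h : Ax f ep d o) (x : ι) (L : List ι) (m : M) :
    dP d L (d x m) = d x (dP d L m) := by
  induction L with
  | nil => rfl
  | cons y L ih =>
    simp only [dP, LinearMap.comp_apply]
    rw [ih, h.dd]

theorem dE_d (h : Ax f ep d o) (x : ι) (L : List ι) (m : M) :
    dE d L (d x m) = d x (dE d L m) := by
  induction L with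
  | nil => simp [dE]
  | cons y L ih =>
    simp only [dE, LinearMap.comp_apply, LinearMap.add_apply, map_add]
    rw [ih, h.dd, dP_d h]

theorem dP_append (h : Ax f ep d o) (L : List ι) (x : ι) (m : M) :
    dP d (L ++ [x]) m = dP d L (d x m) := by
  induction L with
  | nil => rfl
  | cons y L ih =>
    simp only [List.cons_append, dP, LinearMap.comp_apply]
    rw [ih]

theorem dE_append (h : Ax f ep d o) (L : List ι) (x : ι) (m : M) :
    dE d (L ++ [x]) m = dE d L (d x m) + dP d L m := by
  induction L with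
  | nil => simp [dE, dP]
  | cons y L ih =>
    simp only [List.cons_append, dE, LinearMap.comp_apply, LinearMap.add_apply]
    rw [ih, dP_append h, map_add]
    simp only [dP, LinearMap.comp_apply]
    abel

theorem dP_ep (h : Ax f ep d o) (x : ι) (L : List ι) (hx : x ∉ L) (m : M) :
    dP d L (ep x m) = ep x (dP d L m) := by
  induction L with
  | nil => rfl
  | cons y L ih =>
    simp only [List.mem_cons, not_or] at hx
    simp only [dP, LinearMap.comp_apply]
    rw [ih hx.2, h.de' y x (Ne.symm hx.1)]

/-- the words do not involve other sites -/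
theorem off (h : Ax f ep d o) (hr : Rc f ep o t a) (W : List ι) (hW : W.Pairwise (· < ·)) (x : ι)
    (hx : x ∉ W) : d x (t W) = 0 ∧ d x (a W) = 0 := by
  induction W using List.reverseRecOn with
  | nil => rw [hr.t0, hr.a0, h.dz, map_zero]; exact ⟨rfl, rfl⟩
  | append_singleton W y ih =>
    rw [List.pairwise_append] at hW
    obtain ⟨h1, -, h2⟩ := hW
    have h3 : ∀ z ∈ W, z < y := fun z hz => h2 z hz y (by simp)
    simp only [List.mem_append, List.mem_singleton, not_or] at hx
    obtain ⟨i1, i2⟩ := ih h1 hx.1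
    have hxy : x ≠ y := hx.2
    constructor
    · rw [hr.tx W y h1 h3]
      simp only [map_add, map_smul, h.de' x y hxy, i1, i2, map_zero, smul_zero, add_zero]
    · rw [hr.ax W y h1 h3]
      simp only [map_add, map_smul, h.de' x y hxy, i1, i2, map_zero, smul_zero, add_zero]

theorem d_a (h : Ax f ep d o) (hr : Rc f ep o t a) (W : List ι) (hW : W.Pairwise (· < ·)) (x : ι)
    (hx : ∀ y ∈ W, y < x) : d x (a (W ++ [x])) = a W := by
  have hxW : x ∉ W := fun hh => lt_irrefl _ (hx x hh)
  obtain ⟨i1, i2⟩ := off h hr W hW x hxW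
  rw [hr.ax W x hW hx]
  simp only [map_add, map_smul, h.de, i1, i2, map_zero, smul_zero, add_zero, zero_add]

theorem d_t (h : Ax f ep d o) (hr : Rc f ep o t a) (W : List ι) (hW : W.Pairwise (· < ·)) (x : ι)
    (hx : ∀ y ∈ W, y < x) : d x (t (W ++ [x])) = t W + f x • a W := by
  have hxW : x ∉ W := fun hh => lt_irrefl _ (hx x hh)
  obtain ⟨i1, i2⟩ := off h hr W hW x hxW
  rw [hr.tx W x hW hx]
  simp only [map_add, map_smul, h.de, i1, i2, map_zero, smul_zero, add_zero]

end basic

/-! ### sums over all words of a given length -/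

/-- the sum of `F` over the increasing lists of `k` sites of `V` -/
def su (F : List ι → M) (V : Finset ι) (k : ℕ) : M :=
  ∑ X ∈ V.powersetCard k, F (X.sort (· ≤ ·))

theorem sort_pairwise (X : Finset ι) : (X.sort (· ≤ ·)).Pairwise (· < ·) :=
  (Finset.sortedLT_sort X).pairwise

theorem sort_insert_max (X : Finset ι) (x : ι) (hx : ∀ y ∈ X, y < x) :
    (insert x X).sort (· ≤ ·) = X.sort (· ≤ ·) ++ [x] := by
  have hxX : x ∉ X := fun h => lt_irrefl _ (hx x h)
  refine List.Perm.eq_of_pairwise (le := (· < ·)) ?_ ?_ ?_ ?_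
  · intro u v _ _ h1 h2
    exact absurd (lt_trans h1 h2) (lt_irrefl _)
  · exact sort_pairwise _
  · rw [List.pairwise_append]
    refine ⟨sort_pairwise X, by simp, ?_⟩
    intro u hu v hv
    rw [List.mem_singleton] at hv
    subst hv
    exact hx u (by simpa using hu)
  · refine (List.perm_ext_iff_of_nodup (Finset.sort_nodup _ _) ?_).2 ?_
    · rw [List.nodup_append]
      refine ⟨Finset.sort_nodup _ _, by simp, ?_⟩
      intro u hu v hv huv
      rw [List.mem_singleton] at hv
      subst hv
      subst huv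
      exact hxX (by simpa using hu)
    · intro u
      simp [or_comm]

theorem su_insert (F : List ι → M) (V : Finset ι) (x : ι) (hx : ∀ y ∈ V, y < x) (k : ℕ) :
    su F (insert x V) (k + 1) = su F V (k + 1) +
      ∑ X ∈ V.powersetCard k, F (X.sort (· ≤ ·) ++ [x]) := by
  have hxV : x ∉ V := fun h => lt_irrefl _ (hx x h)
  unfold su
  rw [Finset.powersetCard_succ_insert hxV, Finset.sum_union, Finset.sum_image]
  · congr 1
    refine Finset.sum_congr rfl fun X hX => ?_
    rw [sort_insert_max X x fun y hy => hx y ((Finset.mem_powersetCard.1 hX).1 hy)]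
  · intro X hX Y hY hXY
    have hX' : x ∉ X := fun h => hxV ((Finset.mem_powersetCard.1 hX).1 h)
    have hY' : x ∉ Y := fun h => hxV ((Finset.mem_powersetCard.1 hY).1 h)
    have h1 := congrArg (fun Z => Z.erase x) hXY
    simpa [Finset.erase_insert hX', Finset.erase_insert hY'] using h1
  · rw [Finset.disjoint_left]
    intro X hX hX'
    obtain ⟨Y, -, rfl⟩ := Finset.mem_image.1 hX'
    exact hxV ((Finset.mem_powersetCard.1 hX).1 (Finset.mem_insert_self _ _))

section sums

variable {f : ι → A} {ep d : ι → M →ₗ[A] M} {o : M} {t a : List ι → M}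

/-- the sites of `R` and of the list `L` -/
def un (R : Finset ι) (L : List ι) : Finset ι := R ∪ L.toFinset

theorem un_append (R : Finset ι) (L : List ι) (x : ι) : un R (L ++ [x]) = insert x (un R L) := by
  ext y
  simp [un]

/-- the list `L` is increasing and above `R` -/
def Above (R : Finset ι) (L : List ι) : Prop := L.Pairwise (· < ·) ∧ ∀ r ∈ R, ∀ x ∈ L, r < x

theorem Above.init {R : Finset ι} {L : List ι} {x : ι} (h : Above R (L ++ [x])) :
    Above R L ∧ ∀ y ∈ un R L, y < x := by
  obtain ⟨h1, h2⟩ := h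
  rw [List.pairwise_append] at h1
  refine ⟨⟨h1.1, fun r hr y hy => h2 r hr y (by simp [hy])⟩, ?_⟩
  intro y hy
  simp only [un, Finset.mem_union, List.mem_toFinset] at hy
  rcases hy with hy | hy
  · exact h2 y hy x (by simp)
  · exact h1.2.2 y hy x (by simp)

theorem lt_of_mem_sort {V X : Finset ι} {k : ℕ} (hX : X ∈ V.powersetCard k) {x : ι}
    (hx : ∀ y ∈ V, y < x) : ∀ y ∈ X.sort (· ≤ ·), y < x := fun y hy =>
  hx y ((Finset.mem_powersetCard.1 hX).1 ((Finset.mem_sort _).1 hy))

theorem notMem_sort {V X : Finset ι} {k : ℕ} (hX : X ∈ V.powersetCard k) {x : ι}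
    (hx : ∀ y ∈ V, y < x) : x ∉ X.sort (· ≤ ·) := fun h =>
  lt_irrefl _ (lt_of_mem_sort hX hx x h)

theorem length_sort' {V X : Finset ι} {k : ℕ} (hX : X ∈ V.powersetCard k) :
    (X.sort (· ≤ ·)).length = k := by
  rw [Finset.length_sort]; exact (Finset.mem_powersetCard.1 hX).2

theorem d_su (h : Ax f ep d o) (hr : Rc f ep o t a) (V : Finset ι) (x : ι)
    (hx : ∀ y ∈ V, y < x) (k : ℕ) : d x (su a V k) = 0 := by
  unfold su
  rw [map_sum]
  exact Finset.sum_eq_zero fun X hX => (off h hr _ (sort_pairwise X) x (notMem_sort hX hx)).2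

theorem d_su_t (h : Ax f ep d o) (hr : Rc f ep o t a) (V : Finset ι) (x : ι)
    (hx : ∀ y ∈ V, y < x) (k : ℕ) : d x (su t V k) = 0 := by
  unfold su
  rw [map_sum]
  exact Finset.sum_eq_zero fun X hX => (off h hr _ (sort_pairwise X) x (notMem_sort hX hx)).1

/-- recursion of the sum of the `a` -/
theorem su_a_insert (hr : Rc f ep o t a) (V : Finset ι) (x : ι)
    (hx : ∀ y ∈ V, y < x) (k : ℕ) :
    su a (insert x V) (k + 1) = su a V (k + 1) +
      (su t V k + ep x (su a V k) + (((k : A) + 1) * f x) • su a V k) := by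
  rw [su_insert a V x hx]
  congr 1
  have h1 : ∀ X ∈ V.powersetCard k, a (X.sort (· ≤ ·) ++ [x]) =
      t (X.sort (· ≤ ·)) + ep x (a (X.sort (· ≤ ·))) +
        (((k : A) + 1) * f x) • a (X.sort (· ≤ ·)) := by
    intro X hX
    rw [hr.ax _ x (sort_pairwise X) (lt_of_mem_sort hX hx), length_sort' hX]
  rw [Finset.sum_congr rfl h1]
  simp only [su, Finset.sum_add_distrib, map_sum, Finset.smul_sum]

/-- recursion of the sum of the `t` -/
theorem su_t_insert (hr : Rc f ep o t a) (V : Finset ι) (x : ι)
    (hx : ∀ y ∈ V, y < x) (k : ℕ) :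
    su t (insert x V) (k + 1) = su t V (k + 1) +
      (ep x (su t V k) + ((k : A) * f x) • su t V k + f x • ep x (su a V k)) := by
  rw [su_insert t V x hx]
  congr 1
  have h1 : ∀ X ∈ V.powersetCard k, t (X.sort (· ≤ ·) ++ [x]) =
      ep x (t (X.sort (· ≤ ·))) + ((k : A) * f x) • t (X.sort (· ≤ ·)) +
        f x • ep x (a (X.sort (· ≤ ·))) := by
    intro X hX
    rw [hr.tx _ x (sort_pairwise X) (lt_of_mem_sort hX hx), length_sort' hX]
  rw [Finset.sum_congr rfl h1]
  simp only [su, Finset.sum_add_distrib, map_sum, Finset.smul_sum]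

/-- the sum of `f` over a list -/
def fL (f : ι → A) (L : List ι) : A := (L.map f).sum

theorem fL_append (f : ι → A) (L : List ι) (x : ι) : fL f (L ++ [x]) = fL f L + f x := by
  simp [fL]

/-- all the derivations of `L` -/
theorem dP_su (h : Ax f ep d o) (hr : Rc f ep o t a) (R : Finset ι) (k : ℕ) (L : List ι)
    (hL : Above R L) :
    dP d L (su a (un R L) (k + L.length)) = su a R k ∧
      dP d L (su t (un R L) (k + L.length)) = su t R k + fL f L • su a R k := by
  induction L using List.reverseRecOn with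
  | nil => simp [dP, un, fL]
  | append_singleton L x ih =>
    obtain ⟨hL', hx⟩ := hL.init
    obtain ⟨i1, i2⟩ := ih hL'
    have e : k + (L ++ [x]).length = (k + L.length) + 1 := by simp [add_assoc]
    rw [e, un_append, dP_append h, dP_append h, su_a_insert hr _ x hx, su_t_insert hr _ x hx,
      fL_append]
    have z1 := d_su h hr (un R L) x hx
    have z2 := d_su_t h hr (un R L) x hx
    simp only [map_add, map_smul, h.de, z1, z2, map_zero, smul_zero, add_zero, zero_add]
    refine ⟨i1, ?_⟩
    rw [i1, i2, add_smul]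
    abel

/-- **step 3, first form** -/
theorem dE_su (h : Ax f ep d o) (hr : Rc f ep o t a) (R : Finset ι) (k : ℕ) (L : List ι)
    (hL : Above R L) :
    dE d L (su a (un R L) (k + L.length)) = (L.length : A) • (su a R (k + 1) + su t R k) +
      (L.map fun x => ep x (su a R k)).sum + (((L.length : A) + k) * fL f L) • su a R k := by
  induction L using List.reverseRecOn with
  | nil => simp [dE, fL]
  | append_singleton L x ih =>
    obtain ⟨hL', hx⟩ := hL.init
    have i1 := ih hL'
    obtain ⟨p1, p2⟩ := dP_su h hr R k L hL'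
    obtain ⟨p3, -⟩ := dP_su h hr R (k + 1) L hL'
    have e : k + (L ++ [x]).length = (k + L.length) + 1 := by simp [add_assoc]
    rw [e, un_append, dE_append h, su_a_insert hr _ x hx]
    have z1 := d_su h hr (un R L) x hx
    have z2 := d_su_t h hr (un R L) x hx
    have hxL : x ∉ L := fun hh => lt_irrefl _ (hx x (by simp [un, hh]))
    have e3 : k + L.length + 1 = k + 1 + L.length := by ring
    simp only [map_add, map_smul, h.de, z1, z2, map_zero, smul_zero, add_zero, zero_add]
    rw [dP_ep h x L hxL, i1, p1, p2, e3, p3]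
    simp only [List.map_append, List.map_cons, List.map_nil, List.sum_append, List.sum_cons,
      List.sum_nil, add_zero, fL_append, List.length_append, List.length_cons, List.length_nil,
      zero_add, Nat.cast_add, Nat.cast_one, smul_add, add_smul, mul_add, add_mul, one_smul,
      one_mul]
    module

/-- **step 3, parity form** -/
theorem dE_su_odd (h : Ax f ep d o) (hr : Rc f ep o t a) (R : Finset ι) (k : ℕ) (L : List ι)
    (hL : Above R L) (hk : Odd k) (hl : Odd L.length) :
    dE d L (su a (un R L) (k + L.length)) = su a R (k + 1) + su t R k +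
      (L.map fun x => ep x (su a R k)).sum := by
  rw [dE_su h hr R k L hL]
  have h1 : (L.length : A) = 1 := by
    obtain ⟨j, hj⟩ := hl
    rw [hj]; push_cast
    rw [D818Zm.two_eq_zero, zero_mul, zero_add]
  have h2 : (k : A) = 1 := by
    obtain ⟨j, hj⟩ := hk
    rw [hj]; push_cast
    rw [D818Zm.two_eq_zero, zero_mul, zero_add]
  rw [h1, h2, one_add_one_eq_two, D818Zm.two_eq_zero, zero_mul, zero_smul, add_zero, one_smul]

end sums

/-! ### the operator `D` -/

section D

variable {f : ι → A} {ep d : ι → M →ₗ[A] M} {o : M} {t a : List ι → M}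

/-- `D = ∑ f_x d_x` -/
def DD (f : ι → A) (d : ι → M →ₗ[A] M) (V : Finset ι) : M →ₗ[A] M := ∑ x ∈ V, f x • d x

theorem DD_apply (V : Finset ι) (m : M) : DD f d V m = ∑ x ∈ V, f x • d x m := by
  simp [DD, LinearMap.sum_apply]

theorem DD_ep (h : Ax f ep d o) {V : Finset ι} {z : ι} (hz : z ∈ V) (m : M) :
    DD f d V (ep z m) = f z • m + ep z (DD f d V m) := by
  rw [DD_apply, DD_apply, map_sum, ← Finset.add_sum_erase V _ hz, ← Finset.add_sum_erase V _ hz,
    h.de, smul_add, map_smul, add_assoc]
  congr 2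
  refine Finset.sum_congr rfl fun x hx => ?_
  rw [h.de' x z (Finset.ne_of_mem_erase hx), map_smul]

/-- in odd cardinality -/
theorem em_mul_sum (h : Ax f ep d o) {S : Finset ι} (hS : Odd S.card) :
    em f S * ∑ x ∈ S, f x = pr f S := by
  have h1 : ∀ x ∈ S, em f S * f x = pr f S := by
    intro x hx
    rw [em_erase_add (f := f) hx, add_mul, mul_assoc, h.ff, mul_zero, zero_add, mul_comm]
    simp only [pr]
    exact Finset.mul_prod_erase S f hx
  rw [Finset.mul_sum, Finset.sum_congr rfl h1, Finset.sum_const]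
  obtain ⟨j, hj⟩ := hS
  rw [hj, add_smul, one_smul, mul_comm 2 j, mul_smul, two_smul, CharTwo.add_self_eq_zero,
    smul_zero, zero_add]

/-- **step 3** -/
theorem step (h : Ax f ep d o) (hr : Rc f ep o t a) {V R S : Finset ι} (hSV : S ⊆ V)
    (hRS : ∀ r ∈ R, ∀ x ∈ S, r < x) (hS : Odd S.card) {k : ℕ} (hk : Odd k) :
    DD f d V (em f S • dE d (S.sort (· ≤ ·)) (su a (R ∪ S) (k + S.card))) =
      ∑ Q ∈ R.powersetCard (k + 1), em f S • DD f d V (a (Q.sort (· ≤ ·))) +
      ∑ Y ∈ R.powersetCard k, (pr f S • a (Y.sort (· ≤ ·)) +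
        em f S • DD f d V (t (Y.sort (· ≤ ·))) +
        em f S • ∑ z ∈ S, ep z (DD f d V (a (Y.sort (· ≤ ·))))) := by
  have hL : Above R (S.sort (· ≤ ·)) :=
    ⟨sort_pairwise S, fun r hr x hx => hRS r hr x ((Finset.mem_sort _).1 hx)⟩
  have hu : un R (S.sort (· ≤ ·)) = R ∪ S := by
    unfold un
    rw [Finset.sort_toFinset]
  have h1 := dE_su_odd h hr R k _ hL hk (by rw [Finset.length_sort]; exact hS)
  rw [hu, Finset.length_sort] at h1
  rw [h1]
  have h2 : ∀ m : M, ((S.sort (· ≤ ·)).map fun x => ep x m).sum = ∑ x ∈ S, ep x m := by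
    intro m
    rw [← List.sum_toFinset _ (Finset.sort_nodup _ _), Finset.sort_toFinset]
  rw [h2]
  have h3 : DD f d V (∑ x ∈ S, ep x (su a R k)) =
      (∑ x ∈ S, f x) • su a R k + ∑ x ∈ S, ep x (DD f d V (su a R k)) := by
    rw [map_sum, Finset.sum_congr rfl fun x hx => DD_ep h (hSV hx) (su a R k),
      Finset.sum_add_distrib, Finset.sum_smul]
  rw [map_smul, map_add, map_add, h3, smul_add, smul_add, smul_add, smul_smul, em_mul_sum h hS]
  simp only [su, map_sum, Finset.smul_sum, Finset.sum_add_distrib]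
  rw [Finset.sum_comm (s := S)]
  abel

end D

/-! ### the product of the transforms of a path -/

section path

variable {f : ι → A} {ep d : ι → M →ₗ[A] M} {o : M}

/-- the transform of the pair `x, y` -/
def TT (f : ι → A) (d : ι → M →ₗ[A] M) (x y : ι) (m : M) : M :=
  (f x + f y) • (d x m + d y m) + (f x * f y) • d x (d y m)

/-- the product of the transforms of the path `L` -/
def Tp (f : ι → A) (d : ι → M →ₗ[A] M) : List ι → M → M
  | [], m => m
  | [_], m => m
  | x :: y :: L, m => TT f d x y (Tp f d (y :: L) m)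

theorem TT_smul (x y : ι) (c : A) (m : M) : TT f d x y (c • m) = c • TT f d x y m := by
  simp only [TT, map_smul, smul_add, smul_smul]
  rw [mul_comm (f x + f y) c, mul_comm (f x * f y) c]

theorem two_steps (h : Ax f ep d o) (x y z : ι) (m : M) :
    TT f d x y (TT f d y z m) =
      (f x * f y + f x * f z + f y * f z) •
        (d x (d y m) + d x (d z m) + d y (d z m)) := by
  have e1 : (f x + f y) * (f y + f z) = f x * f y + f x * f z + f y * f z := by
    linear_combination h.ff y
  have e2 : (f x + f y) * (f y * f z) + (f x * f y) * (f y + f z) = 0 := by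
    linear_combination (f z + f x) * h.ff y + (f x * f y * f z) * (D818Zm.two_eq_zero (A := A))
  have e3 : d x (TT f d y z m) = (f y + f z) • (d x (d y m) + d x (d z m)) +
      (f y * f z) • d x (d y (d z m)) := by
    simp only [TT, map_add, map_smul]
  have e4 : d y (TT f d y z m) = (f y + f z) • d y (d z m) := by
    simp only [TT, map_add, map_smul, h.d2, smul_zero, zero_add, add_zero]
  have e5 : TT f d x y (TT f d y z m) = ((f x + f y) * (f y + f z)) •
      (d x (d y m) + d x (d z m) + d y (d z m)) +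
      ((f x + f y) * (f y * f z) + (f x * f y) * (f y + f z)) • d x (d y (d z m)) := by
    rw [TT, e4, e3, map_smul]
    module
  rw [e5, e1, e2, zero_smul, add_zero]

/-- **closed form of the product of the transforms of a path with an odd number of sites** -/
theorem Tp_eq (h : Ax f ep d o) : ∀ (L : List ι), L.Nodup → Odd L.length → ∀ m : M,
    Tp f d L m = em f L.toFinset • dE d L m
  | [], _, ho, _ => by simp at ho
  | [x], _, _, m => by
    simp [Tp, dE, dP, em_singleton]
  | [x, y], _, ho, _ => by
    rcases ho with ⟨j, hj⟩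
    simp only [List.length_cons, List.length_nil] at hj
    omega
  | x :: y :: z :: L, hn, ho, m => by
    have hn2 : (z :: L).Nodup := (hn.of_cons).of_cons
    have ho2 : Odd (z :: L).length := by
      simp only [List.length_cons] at ho ⊢
      rcases ho with ⟨j, hj⟩
      exact ⟨j - 1, by omega⟩
    have ih := Tp_eq h (z :: L) hn2 ho2 m
    have hx : x ∉ insert y (insert z L.toFinset) := by
      have := (List.nodup_cons.1 hn).1
      simpa using this
    have hy : y ∉ insert z L.toFinset := by
      have := (List.nodup_cons.1 hn.of_cons).1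
      simpa using this
    have hz : z ∉ L.toFinset := by
      have := (List.nodup_cons.1 hn2).1
      simpa using this
    have e1 : Tp f d (x :: y :: z :: L) m = TT f d x y (TT f d y z (Tp f d (z :: L) m)) := rfl
    rw [e1, ih, TT_smul, TT_smul, two_steps h, smul_smul]
    have e2 : em f (z :: L).toFinset * (f x * f y + f x * f z + f y * f z) =
        em f (x :: y :: z :: L).toFinset := by
      simp only [List.toFinset_cons]
      rw [em_insert hx, em_insert hy, em_insert hz, pr_insert hy, pr_insert hz]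
      linear_combination (em f L.toFinset * (f x + f y)) * h.ff z
    rw [e2]
    congr 1
    simp only [dE, dP, LinearMap.add_apply, LinearMap.comp_apply, map_add, h.d2,
      zero_add, h.dd _ z (_ : M)]

end path

/-! ### membership of the block element -/

section block

variable {f : ι → A} {ep d : ι → M →ₗ[A] M} {o : M} {t a : List ι → M} {E : ι → M →ₗ[A] M}

/-- **the block element lies in the span of the words** -/
theorem block_mem (h : Ax f ep d o) (hr : Rc f ep o t a) {V R S : Finset ι} (hV : V = R ∪ S)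
    (hRS : ∀ r ∈ R, ∀ x ∈ S, r < x) {b s : ℕ} (hS : S.card = 2 * s + 1) (hsb : s ≤ b)
    (hVb : 2 * b + 4 ≤ V.card)
    (hK : LawK f (fun W => DD f d V (a W)) V) (hT : LawT f (fun W => DD f d V (a W)) V)
    (hI : LawI f E (fun W => DD f d V (a W)) V)
    (hA : LawA f E a (fun W => DD f d V (t W)) (fun W => DD f d V (a W)) V)
    (hE : ∀ z ∈ S, ∀ Y ⊆ R, E z (DD f d V (a (Y.sort (· ≤ ·)))) =
      ep z (DD f d V (a (Y.sort (· ≤ ·))))) :
    DD f d V (em f S • dE d (S.sort (· ≤ ·)) (su a V (2 * b + 2))) ∈
      sp (fun W => DD f d V (a W)) V (2 * b + 2) := by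
  have hd : Disjoint R S := by
    rw [Finset.disjoint_left]
    intro x hx hx'
    exact lt_irrefl _ (hRS x hx x hx')
  have hSV : S ⊆ V := hV ▸ Finset.subset_union_right
  have hRV : R ⊆ V := hV ▸ Finset.subset_union_left
  have hRc : 2 * (b - s) + 3 ≤ R.card := by
    have := Finset.card_union_of_disjoint hd
    rw [← hV] at this
    omega
  have hk : Odd (2 * (b - s) + 1) := ⟨b - s, rfl⟩
  have e : 2 * b + 2 = (2 * (b - s) + 1) + S.card := by omega
  have h1 := step (o := o) (ep := ep) h hr hSV hRS (by rw [hS]; exact ⟨s, rfl⟩) hk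
  rw [← hV, ← e] at h1
  rw [h1]
  refine AddSubgroup.add_mem _ (AddSubgroup.sum_mem _ fun Q hQ => ?_)
    (AddSubgroup.sum_mem _ fun Y hY => ?_)
  · obtain ⟨hQR, hQc⟩ := Finset.mem_powersetCard.1 hQ
    obtain ⟨p, hp, hpQ⟩ : ∃ p ∈ R, p ∉ Q := by
      by_contra hcon
      push Not at hcon
      have := Finset.card_le_card (show R ⊆ Q from hcon)
      omega
    have := A_mem hK s (Q.sort (· ≤ ·)) S p (Finset.sort_nodup _ _)
      (by rw [Finset.length_sort, hQc]; exact ⟨b - s + 1, by ring⟩)
      (fun w hw => hRV (hQR ((Finset.mem_sort _).1 hw))) hSV (hRV hp)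
      (Finset.disjoint_left.1 hd hp) (fun hh => hpQ ((Finset.mem_sort _).1 hh))
      (fun w hw => Finset.disjoint_left.1 hd (hQR ((Finset.mem_sort _).1 hw))) hS
    rw [Finset.length_sort, hQc] at this
    have e2 : 2 * (b - s) + 1 + 1 + 2 * s = 2 * b + 2 := by omega
    rwa [e2] at this
  · obtain ⟨hYR, hYc⟩ := Finset.mem_powersetCard.1 hY
    obtain ⟨c, hc, p, hp, hcp⟩ : ∃ c ∈ R \ Y, ∃ p ∈ R \ Y, c ≠ p := by
      have : 1 < (R \ Y).card := by
        rw [Finset.card_sdiff_of_subset hYR]; omega
      obtain ⟨c, hc, p, hp, hcp⟩ := Finset.one_lt_card.1 this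
      exact ⟨c, hc, p, hp, hcp⟩
    rw [Finset.mem_sdiff] at hc hp
    have := G_mem hK hT hI hA s (Y.sort (· ≤ ·)) S c p (Finset.sort_nodup _ _)
      (by rw [Finset.length_sort, hYc]; exact hk)
      (fun w hw => hRV (hYR ((Finset.mem_sort _).1 hw))) hSV (hRV hc.1) (hRV hp.1)
      (Finset.disjoint_left.1 hd hc.1) (Finset.disjoint_left.1 hd hp.1)
      (fun hh => hc.2 ((Finset.mem_sort _).1 hh)) (fun hh => hp.2 ((Finset.mem_sort _).1 hh)) hcp
      (fun w hw => Finset.disjoint_left.1 hd (hYR ((Finset.mem_sort _).1 hw))) hS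
    rw [Finset.length_sort, hYc] at this
    have e2 : 2 * (b - s) + 1 + 2 * s + 1 = 2 * b + 2 := by omega
    rw [e2] at this
    have e3 : ∑ z ∈ S, ep z (DD f d V (a (Y.sort (· ≤ ·)))) =
        ∑ z ∈ S, E z (DD f d V (a (Y.sort (· ≤ ·)))) :=
      Finset.sum_congr rfl fun z hz => (hE z hz Y hYR).symm
    rw [e3]
    exact this

end block

end D81877ZS
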