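import Pool.Agent.Lib.MP_d81877_alZF.Orth
import Pool.Agent.Lib.MP_d81877_alG.Ring
import Pool.Agent.Lib.MP_d81877_alZS.Step

/-!
MP_d81877_al, part D, step 3 on the concrete model `Z`: the product of the transforms of a path,
in the three forms used by the other modules.
-/

namespace D81877ZS

open D81877ZF

variable {ι : Type*} [LinearOrder ι] {K : Type*} [Field K]

theorem TT_val (x y : ι) : ((D81877G.TT K x y : D81877G.AA ι K) : Module.End K (Z ι K)) = T x y :=
  rfl

theorem T_comm' (x y : ι) : (T x y : Module.End K (Z ι K)) = T y x := by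
  unfold T
  rw [add_comm (f x), add_comm (d x), (f_comm x y).eq, (d_comm x y).eq]

/-- the product of the transforms along a path is the block operator -/
theorem Tl_path [CharP K 2] : ∀ L : List ι, L.Nodup →
    (Tl (L.zip L.tail) : Module.End K (Z ι K)) = (D81877G.TS K L.toFinset : D81877G.AA ι K)
  | [], _ => by
    simp only [List.tail_nil, List.zip_nil_right, List.toFinset_nil, D81877G.TS_empty, Tl_nil]
    rfl
  | [x], _ => by
    have h : ([x] : List ι).toFinset = {x} := by simp
    rw [h, D81877G.TS_singleton]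
    rfl
  | x :: y :: L, hn => by
    have ih := Tl_path (y :: L) hn.of_cons
    have hx : x ∉ (y :: L).toFinset := by
      have := (List.nodup_cons.1 hn).1
      simpa using this
    have hy : y ∈ (y :: L).toFinset := by simp
    have e1 : (x :: y :: L).zip (x :: y :: L).tail = (x, y) :: (y :: L).zip (y :: L).tail := rfl
    have e2 : (x :: y :: L).toFinset = insert x (y :: L).toFinset := List.toFinset_cons
    rw [e1, Tl_cons, ih, e2, D81877G.TS_insert hy hx]
    have e3 : ((D81877G.TT K y x * D81877G.TS K (y :: L).toFinset : D81877G.AA ι K) :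
        Module.End K (Z ι K)) =
        (D81877G.TT K y x : D81877G.AA ι K) * (D81877G.TS K (y :: L).toFinset : D81877G.AA ι K) :=
      rfl
    rw [e3, TT_val, T_comm' y x]

section mod

variable {A : Type*} [CommRing A] [CharP A 2] [Module A (Z ι K)]

/-- the path product in module form -/
theorem Tl_eq_Tp {fA : ι → A} {dA : ι → Z ι K →ₗ[A] Z ι K} (hf : ∀ x (u : Z ι K), fA x • u = f x u)
    (hd : ∀ x (u : Z ι K), dA x u = d x u) : ∀ (L : List ι) (u : Z ι K),
    Tl (L.zip L.tail) u = Tp fA dA L u
  | [], u => rfl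
  | [x], u => rfl
  | x :: y :: L, u => by
    have ih := Tl_eq_Tp hf hd (y :: L) u
    have e1 : (x :: y :: L).zip (x :: y :: L).tail = (x, y) :: (y :: L).zip (y :: L).tail := rfl
    have e2 : Tp fA dA (x :: y :: L) u = TT fA dA x y (Tp fA dA (y :: L) u) := rfl
    rw [e1, Tl_cons, Module.End.mul_apply, ih, e2]
    simp only [TT, T, LinearMap.add_apply, Module.End.mul_apply, add_smul, mul_smul, hf, hd,
      map_add]
    abel

/-- the block operator in module form -/
theorem TS_apply [CharP K 2] {fA : ι → A} {dA : ι → Z ι K →ₗ[A] Z ι K}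
    {ep : ι → Z ι K →ₗ[A] Z ι K} {o : Z ι K} (hf : ∀ x (u : Z ι K), fA x • u = f x u)
    (hd : ∀ x (u : Z ι K), dA x u = d x u) (h : Ax fA ep dA o) {S : Finset ι} (hS : Odd S.card)
    (u : Z ι K) :
    (D81877G.TS K S : D81877G.AA ι K).val u = D818Zm.em fA S • dE dA (S.sort (· ≤ ·)) u := by
  have h1 := Tl_path (K := K) (S.sort (· ≤ ·)) (Finset.sort_nodup _ _)
  have h2 := Tp_eq h (S.sort (· ≤ ·)) (Finset.sort_nodup _ _) (by rw [Finset.length_sort]; exact hS)
    u
  rw [Finset.sort_toFinset] at h1 h2
  rw [← h2, ← Tl_eq_Tp hf hd, h1]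

end mod

end D81877ZS
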